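import Pool.Agent.KS6_11.Sqz.Super

set_option autoImplicit false

/-!
# MP_18219f_mp, Q1 (yes), in a stronger form: `G` is strongly superadditive

`Pool.Agent.H95.Sqz`: `Mat n` are the real matrices indexed by `Fin n × Fin 2` (the quadratures
`Q₁, P₁, …, Qₙ, Pₙ`), `sig n` is the symplectic form, `IsCov` says that a matrix is a covariance
matrix, `G` is the squeezing measure of the problem and `dsum A B` is `A ⊕ B`.
`costs γ` is the set of the values `∑_{i ≤ n} log sᵢ(S)` whose infimum is `G γ`, and `marg f γ` is
the reduced covariance matrix of the modes `f 0, …, f (a - 1)` of `γ`.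
-/

namespace Pool.Agent.Results.MP_18219f_mp.StrongSuperadditivity

open Pool.Agent.H95.Sqz Pool.Agent.KS6_11.Sqz

/-- **`G` is strongly superadditive, with equality for product states.**
1. `G γ` is the infimum of a nonempty set of costs that is bounded below.
2. For *every* covariance matrix `γ` of `a + b` modes, whatever the correlations between the first
   `a` and the last `b` modes, `G γ ≥ G γ_A + G γ_B` for its reduced covariance matrices.
3. For every covariance matrix `γ` of `n` modes and any number `k` of pairwise disjoint groups of its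
   modes (of any sizes, in any position, not necessarily exhausting the modes), the reduced matrices
   are covariance matrices and `G γ` is at least the sum of their `G`s; if the groups exhaust the
   modes and no two different groups are correlated, there is equality.
4. `G (γ_A ⊕ γ_B) = G γ_A + G γ_B`. -/
theorem result :
    (∀ (n : ℕ) (γ : Mat n), IsCov γ → (costs γ).Nonempty ∧ IsGLB (costs γ) (G γ)) ∧
    (∀ (a b : ℕ) (γ : Mat (a + b)), IsCov γ →
      G (marg (Fin.castAdd b) γ) + G (marg (Fin.natAdd a) γ) ≤ G γ) ∧
    (∀ (n : ℕ) (γ : Mat n), IsCov γ → ∀ (k : ℕ) (a : Fin k → ℕ)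
      (f : (j : Fin k) → Fin (a j) → Fin n),
      Function.Injective (fun p : (j : Fin k) × Fin (a j) => f p.1 p.2) →
      (∀ j, IsCov (marg (f j) γ)) ∧
      ∑ j, G (marg (f j) γ) ≤ G γ ∧
      ((Function.Surjective (fun p : (j : Fin k) × Fin (a j) => f p.1 p.2) ∧
        ∀ i j, i ≠ j → ∀ x y s t, γ (f i x, s) (f j y, t) = 0) →
        G γ = ∑ j, G (marg (f j) γ))) ∧
    (∀ (a b : ℕ) (A : Mat a) (B : Mat b), IsCov A → IsCov B →
      IsCov (dsum A B) ∧ G (dsum A B) = G A + G B) := by
  refine ⟨fun n γ h => isGLB_costs h, fun a b γ h => ?_, fun n γ h k a f hf => ?_,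
    fun a b A B hA hB => ⟨cov_dsum hA hB, additive hA hB⟩⟩
  · have := super_two finSumFinEquiv h
    have e1 : (finSumFinEquiv : Fin a ⊕ Fin b ≃ Fin (a + b)) ∘ Sum.inl = Fin.castAdd b := by
      funext x
      simp
    have e2 : (finSumFinEquiv : Fin a ⊕ Fin b ≃ Fin (a + b)) ∘ Sum.inr = Fin.natAdd a := by
      funext x
      simp
    rwa [e1, e2] at this
  · refine ⟨fun j => cov_marg (fun x y hxy => ?_) h, super_many k n γ h a f hf⟩
    have := @hf ⟨j, x⟩ ⟨j, y⟩ hxy
    simpa using this

end Pool.Agent.Results.MP_18219f_mp.StrongSuperadditivity
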